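import Mathlib

set_option autoImplicit false

namespace Pool.Agent.H.MP_26e61c_ag

abbrev G := ZMod 12

def col (i : Fin 4) (x : G) : ℕ :=
  if x ∈ (![{0, 2, 6}, {0, 1, 4}, {0, 7, 11}, {0, 2, 3}] : Fin 4 → Finset G) i then 1 else 0

def p (g : Fin 4 → G) : ℕ := (∏ i, col i (g i)) * if g 0 = 0 ∧ g 1 = 1 then 4 else 2

def a (A : Finset (Fin 4)) : Option (Fin 4) × G → ℕ
  | (none, x) => if (0 ∈ A ↔ 3 ∈ A) then (if x = ∑ i ∈ A, (![2, 1, 7, 2] : Fin 4 → G) i then 1 else 2)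
      else if x = ∑ i ∈ A, (![0, 1, 11, 0] : Fin 4 → G) i then 4 else 2
  | (some i, x) => col i x * if (0 ∈ A ↔ 3 ∈ A) ∧ i = 1 ∧ x = 1 then 2 else 1

theorem key : ∀ A : Finset (Fin 4), A.card = 2 → ∀ x y z : G,
    a A (none, ∑ i ∈ A, ![x, y, z, -(x + y + z)] i) * ∏ i, a A (some i, ![x, y, z, -(x + y + z)] i) =
      p ![x, y, z, -(x + y + z)] := by
  decide +kernel

theorem key' (A : Finset (Fin 4)) (hA : A.card = 2) (g : Fin 4 → G) (hg : ∑ i, g i = 0) :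
    a A (none, ∑ i ∈ A, g i) * ∏ i, a A (some i, g i) = p g := by
  have : g = ![g 0, g 1, g 2, -(g 0 + g 1 + g 2)] := by
    rw [Fin.sum_univ_four] at hg
    ext i
    fin_cases i
    exacts [rfl, rfl, rfl, eq_neg_of_add_eq_zero_right hg]
  rw [this]
  exact key A hA _ _ _

end Pool.Agent.H.MP_26e61c_ag
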